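import Pool.Agent.Helper93.IA.St0

/-!
# Project IA: the interface theorem `StAPX`
-/

set_option autoImplicit false

namespace Pool.Agent.Helper38.IA

open Finset Pool.Agent.Helper93.IA

theorem hAPX : StAPX := by
  intro hNIB hFZ hBLN hFRN
  obtain ⟨ε, hε, hε', h⟩ := hFRN hFZ hBLN
  refine ⟨ε, hε, hε', ?_⟩
  intro g hg
  obtain ⟨δ, n0, hδ, hN⟩ := hNIB 6 g (by norm_num) hg
  have hb0 : 0 < min ε (δ / 40) := lt_min hε (by positivity)
  refine ⟨min ε (δ / 40), max n0 1, hb0, ?_⟩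
  intro α β γ _ _ _ _ _ _ n hn ha hb hc A B C κ hκ0 hκ hnear himb
  have hn0 : n0 ≤ n := le_trans (le_max_left _ _) hn
  have hn1 : 0 < n := lt_of_lt_of_le Nat.one_pos (le_trans (le_max_right _ _) hn)
  obtain ⟨x, hx0, hx6, hxs, h1, h2, h3, h4, h5, h6⟩ := h α β γ n hn1 ha hb hc A B C κ
    (min ε (δ / 40)) hκ0 hκ hb0.le (min_le_left _ _) hnear himb
  have hd : 1 - δ ≤ 1 - 40 * min ε (δ / 40) := by
    have := min_le_right ε (δ / 40)
    linarith
  exact hN α β γ n hn0 ha hb hc A B C x hx0 hx6 hxs (fun a b' h => le_trans hd (h1 a b' h)) h2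
    (fun b' c h => le_trans hd (h3 b' c h)) h4 (fun c a h => le_trans hd (h5 c a h)) h6

end Pool.Agent.Helper38.IA
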