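import Pool.Agent.Helper93.IA.St0

/-!
# Project IA, parts M, F and BLX: small facts about degrees, used by the modules (all proved)
-/

set_option autoImplicit false

namespace Pool.Agent.Helper38.IA

open Finset Pool.Agent.Helper93.IA

variable {α β γ : Type}

section Deg

variable [Fintype α] [Fintype β] [DecidableEq α] [DecidableEq β]

/-- `d1 A a` as a number of neighbours. -/
theorem d1_eq (A : Finset (α × β)) (a : α) :
    d1 A a = (univ.filter fun b => (a, b) ∈ A).card := by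
  unfold d1
  refine Finset.card_bij (fun e _ => e.2) ?_ ?_ ?_
  · rintro ⟨a', b⟩ h
    simp only [mem_filter] at h
    obtain ⟨h1, h2⟩ := h
    subst h2
    simpa using h1
  · rintro ⟨a1, b1⟩ h1 ⟨a2, b2⟩ h2 h
    simp only [mem_filter] at h1 h2
    simp only at h
    rw [Prod.mk.injEq]
    exact ⟨h1.2.trans h2.2.symm, h⟩
  · intro b hb
    exact ⟨(a, b), by simpa using hb, rfl⟩

/-- `d2 A b` as a number of neighbours. -/
theorem d2_eq (A : Finset (α × β)) (b : β) :
    d2 A b = (univ.filter fun a => (a, b) ∈ A).card := by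
  unfold d2
  refine Finset.card_bij (fun e _ => e.1) ?_ ?_ ?_
  · rintro ⟨a, b'⟩ h
    simp only [mem_filter] at h
    obtain ⟨h1, h2⟩ := h
    subst h2
    simpa using h1
  · rintro ⟨a1, b1⟩ h1 ⟨a2, b2⟩ h2 h
    simp only [mem_filter] at h1 h2
    simp only at h
    rw [Prod.mk.injEq]
    exact ⟨h, h1.2.trans h2.2.symm⟩
  · intro a ha
    exact ⟨(a, b), by simpa using ha, rfl⟩

theorem d1_eq_sum (A : Finset (α × β)) (a : α) :
    (d1 A a : ℝ) = ∑ b, (if (a, b) ∈ A then (1 : ℝ) else 0) := by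
  rw [d1_eq, Finset.sum_ite, Finset.sum_const_zero, add_zero, Finset.sum_const, nsmul_eq_mul,
    mul_one]

theorem d2_eq_sum (A : Finset (α × β)) (b : β) :
    (d2 A b : ℝ) = ∑ a, (if (a, b) ∈ A then (1 : ℝ) else 0) := by
  rw [d2_eq, Finset.sum_ite, Finset.sum_const_zero, add_zero, Finset.sum_const, nsmul_eq_mul,
    mul_one]

/-- neighbours plus non-neighbours in the whole class -/
theorem d1_add_m1 (A : Finset (α × β)) (a : α) : d1 A a + m1 A univ a = Fintype.card β := by
  rw [d1_eq]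
  unfold m1
  rw [Finset.card_filter_add_card_filter_not, Finset.card_univ]

theorem d2_add_m2 (A : Finset (α × β)) (b : β) : d2 A b + m2 A univ b = Fintype.card α := by
  rw [d2_eq]
  unfold m2
  rw [Finset.card_filter_add_card_filter_not, Finset.card_univ]

theorem sum_d1 (A : Finset (α × β)) : ∑ a, (d1 A a : ℝ) = A.card := by
  have h : A.card = ∑ a : α, (A.filter fun e => e.1 = a).card :=
    Finset.card_eq_sum_card_fiberwise (f := fun e : α × β => e.1) (t := univ) (by simp)
  unfold d1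
  rw [h]
  push_cast
  rfl

theorem sum_d2 (A : Finset (α × β)) : ∑ b, (d2 A b : ℝ) = A.card := by
  have h : A.card = ∑ b : β, (A.filter fun e => e.2 = b).card :=
    Finset.card_eq_sum_card_fiberwise (f := fun e : α × β => e.2) (t := univ) (by simp)
  unfold d2
  rw [h]
  push_cast
  rfl

end Deg

/-- rotation of the cyclic convention for `Lv` -/
theorem Lv_rot [Fintype α] [Fintype β] [Fintype γ] [DecidableEq α] [DecidableEq β]
    [DecidableEq γ] {κ ε g ξ : ℝ} {n m : ℕ} {A0 A : Finset (α × β)} {B0 B : Finset (β × γ)}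
    {C0 C : Finset (γ × α)} {U1 W1 : Finset α} {U2 W2 : Finset β} {U3 W3 : Finset γ}
    (h : Lv κ ε g ξ n m A0 A B0 B C0 C U1 W1 U2 W2 U3 W3) :
    Lv κ ε g ξ n m B0 B C0 C A0 A U2 W2 U3 W3 U1 W1 where
  nα := h.nβ
  nβ := h.nγ
  nγ := h.nα
  hm := h.hm
  c1 := h.c2
  c2 := h.c3
  c3 := h.c1
  w1 := h.w2
  w2 := h.w3
  w3 := h.w1
  cw1 := h.cw2
  cw2 := h.cw3
  cw3 := h.cw1
  sA := h.sB
  sB := h.sC
  sC := h.sA
  near := ⟨h.near.2.1, h.near.2.2, h.near.1⟩
  nearU := ⟨h.nearU.2.1, h.nearU.2.2, h.nearU.1⟩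
  smA := h.smB
  smB := h.smC
  smC := h.smA
  agA := h.agB
  agB := h.agC
  agC := h.agA
  bal := ⟨h.bal.2.1, h.bal.2.2, h.bal.1⟩

end Pool.Agent.Helper38.IA
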