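import Pool.Agent.Helper38.IA.St
import Pool.Agent.Helper30.IA38.L1
import Pool.Agent.Helper32.IA38.L2
import Pool.Agent.Helper33.IA38.T0
import Pool.Agent.Helper99.IA38.T1

/-!
# Project IA: the interface theorem `StBLN`
-/

set_option autoImplicit false

namespace Pool.Agent.Helper38.IA

open Pool.Agent.Helper93.IA

theorem hBLN : StBLN :=
  Pool.Agent.Helper99.IA38.hT1 Pool.Agent.Helper30.IA38.hL1 Pool.Agent.Helper32.IA38.hL2
    Pool.Agent.Helper33.IA38.hT0

end Pool.Agent.Helper38.IA
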