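import Pool.Agent.Helper38.IA.St
import Pool.Agent.Helper30.IA38.L1
import Pool.Agent.Helper22.IA38.L3
import Pool.Agent.Helper33.IA38.T0
import Pool.Agent.Helper34.IA38.T2
import Pool.Agent.Helper82.IA38.X1
import Pool.Agent.Helper76.IA38.X2
import Pool.Agent.Helper81.IA38.X3
import Pool.Agent.Helper94.IA38.X4
import Pool.Agent.Helper87.IA38.X5

/-!
# Project IA: the interface theorem `StBLX`
-/

set_option autoImplicit false

namespace Pool.Agent.Helper38.IA

open Pool.Agent.Helper93.IA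

theorem hBLX : StBLX :=
  Pool.Agent.Helper87.IA38.hX5 Pool.Agent.Helper30.IA38.hL1 Pool.Agent.Helper22.IA38.hL3
    Pool.Agent.Helper33.IA38.hT0 Pool.Agent.Helper82.IA38.hX1
    (Pool.Agent.Helper81.IA38.hX3 Pool.Agent.Helper82.IA38.hX1)
    (Pool.Agent.Helper94.IA38.hX4 Pool.Agent.Helper33.IA38.hT0 Pool.Agent.Helper34.IA38.hT2
      Pool.Agent.Helper82.IA38.hX1 Pool.Agent.Helper76.IA38.hX2)

end Pool.Agent.Helper38.IA
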