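import Pool.Agent.Helper38.IA.St
import Pool.Agent.Helper48.IA38.F1
import Pool.Agent.Helper40.IA38.F2
import Pool.Agent.Helper28.IA38.F3

/-!
# Project IA: the interface theorem `StFRN`
-/

set_option autoImplicit false

namespace Pool.Agent.Helper38.IA

open Pool.Agent.Helper93.IA

theorem hFRN : StFRN := fun hFZ hBLN =>
  Pool.Agent.Helper28.IA38.hF3 (Pool.Agent.Helper48.IA38.hF1 hFZ) Pool.Agent.Helper40.IA38.hF2 hBLN

end Pool.Agent.Helper38.IA
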