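import Pool.Agent.Helper93.IA.St0

/-!
# Project IA: greedy list edge colouring of a bipartite graph (`StLEC`)
-/

set_option autoImplicit false

namespace Pool.Agent.Helper38.IA

open Finset Pool.Agent.Helper93.IA

/-- greedy list edge colouring, with a nonempty set of colours -/
theorem lec (X Y Z : Type) [Fintype X] [Fintype Y] [Fintype Z] [DecidableEq X] [DecidableEq Y]
    [DecidableEq Z] [Nonempty Z] (O : Finset (X × Y)) (L : X × Y → Finset Z)
    (hL : ∀ e ∈ O, d1 O e.1 + d2 O e.2 ≤ (L e).card) :
    ∃ f : X × Y → Z, (∀ e ∈ O, f e ∈ L e) ∧
      ∀ e ∈ O, ∀ e' ∈ O, e ≠ e' → (e.1 = e'.1 ∨ e.2 = e'.2) → f e ≠ f e' := by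
  classical
  have key : ∀ S : Finset (X × Y), S ⊆ O → ∃ f : X × Y → Z, (∀ e ∈ S, f e ∈ L e) ∧
      ∀ e ∈ S, ∀ e' ∈ S, e ≠ e' → (e.1 = e'.1 ∨ e.2 = e'.2) → f e ≠ f e' := by
    intro S
    induction S using Finset.induction_on with
    | empty =>
      intro _
      exact ⟨fun _ => Classical.arbitrary Z, by simp, by simp⟩
    | insert e S he ih =>
      intro hS
      obtain ⟨f, hf1, hf2⟩ := ih (fun x hx => hS (mem_insert_of_mem hx))
      have heO : e ∈ O := hS (mem_insert_self _ _)
      -- the colours used by the neighbouring edges
      set N : Finset (X × Y) := S.filter fun e' => e'.1 = e.1 ∨ e'.2 = e.2 with hN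
      have hNsub : N ⊆ ((O.filter fun e' => e'.1 = e.1).erase e) ∪
          ((O.filter fun e' => e'.2 = e.2).erase e) := by
        intro e' he'
        rw [hN, mem_filter] at he'
        have hne : e' ≠ e := fun h => he (h ▸ he'.1)
        have hO' : e' ∈ O := hS (mem_insert_of_mem he'.1)
        rw [mem_union, mem_erase, mem_erase, mem_filter, mem_filter]
        rcases he'.2 with h | h
        · exact Or.inl ⟨hne, hO', h⟩
        · exact Or.inr ⟨hne, hO', h⟩
      have h1 : ((O.filter fun e' => e'.1 = e.1).erase e).card + 1 = d1 O e.1 := by
        rw [Finset.card_erase_of_mem (by simp [heO])]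
        have : 0 < (O.filter fun e' => e'.1 = e.1).card :=
          Finset.card_pos.2 ⟨e, by simp [heO]⟩
        unfold d1
        omega
      have h2 : ((O.filter fun e' => e'.2 = e.2).erase e).card + 1 = d2 O e.2 := by
        rw [Finset.card_erase_of_mem (by simp [heO])]
        have : 0 < (O.filter fun e' => e'.2 = e.2).card :=
          Finset.card_pos.2 ⟨e, by simp [heO]⟩
        unfold d2
        omega
      have hNc : (N.image f).card < (L e).card := by
        have h3 := Finset.card_image_le (s := N) (f := f)
        have h4 := Finset.card_le_card hNsub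
        have h5 := Finset.card_union_le ((O.filter fun e' => e'.1 = e.1).erase e)
          ((O.filter fun e' => e'.2 = e.2).erase e)
        have h6 := hL e heO
        omega
      obtain ⟨z, hz, hzN⟩ := Finset.exists_mem_notMem_of_card_lt_card hNc
      refine ⟨Function.update f e z, ?_, ?_⟩
      · intro e' he'
        by_cases h : e' = e
        · subst h
          rw [Function.update_self]
          exact hz
        · rw [Function.update_of_ne h]
          exact hf1 e' ((mem_insert.1 he').resolve_left h)
      · intro e1 he1 e2 he2 hne hadj
        by_cases h1' : e1 = e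
        · have h2' : e2 ≠ e := fun h => hne (h1'.trans h.symm)
          have he2S : e2 ∈ S := (mem_insert.1 he2).resolve_left h2'
          rw [h1', Function.update_self, Function.update_of_ne h2']
          intro hzf
          apply hzN
          rw [hzf]
          refine mem_image_of_mem f ?_
          rw [hN, mem_filter]
          rw [h1'] at hadj
          exact ⟨he2S, hadj.imp Eq.symm Eq.symm⟩
        · have he1S : e1 ∈ S := (mem_insert.1 he1).resolve_left h1'
          rw [Function.update_of_ne h1']
          by_cases h2' : e2 = e
          · rw [h2', Function.update_self]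
            intro hzf
            apply hzN
            rw [← hzf]
            refine mem_image_of_mem f ?_
            rw [hN, mem_filter]
            rw [h2'] at hadj
            exact ⟨he1S, hadj⟩
          · rw [Function.update_of_ne h2']
            exact hf2 e1 he1S e2 ((mem_insert.1 he2).resolve_left h2') hne hadj
  exact key O (Finset.Subset.refl _)


theorem hLEC : StLEC := by
  intro X Y Z _ _ _ _ _ _ _ O L h
  exact lec X Y Z O L h

end Pool.Agent.Helper38.IA
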