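import Pool.Agent.Helper38.IA.St
import Pool.Agent.Helper38.IA38.M1
import Pool.Agent.Helper10.IA38.M2
import Pool.Agent.Helper9.IA38.M3
import Pool.Agent.Helper15.IA38.M4
import Pool.Agent.Helper67.IA38.M5
import Pool.Agent.Helper97.IA38.M6
import Pool.Agent.Helper75.IA38.M7

/-!
# Project IA: the interface theorem `StMAT`
-/

set_option autoImplicit false

namespace Pool.Agent.Helper38.IA

open Pool.Agent.Helper93.IA

theorem hMAT : StMAT :=
  Pool.Agent.Helper75.IA38.hM7 (Pool.Agent.Helper97.IA38.hM6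
    (Pool.Agent.Helper10.IA38.hM2 Pool.Agent.Helper38.IA38.hM1) Pool.Agent.Helper9.IA38.hM3
    Pool.Agent.Helper15.IA38.hM4 Pool.Agent.Helper67.IA38.hM5)

end Pool.Agent.Helper38.IA
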