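import Pool.Agent.Helper38.IA.Basic

/-!
# Project IA, parts M (matchings), F (fractional decompositions) and BLX: statements of the modules

Part M (`StMAT`): `StM1`, .., `StM7`. Part F (`StBLN`, `StFRN`): `StL1`, `StL2`, `StT0`, `StT1`, `StF1`,
`StF2`, `StF3`. `StBLX`: `StL1`, `StL3`, `StT0`, `StT2`, `StX1`, `StX2`, `StX3`, `StX4`.
Small facts about degrees (`d1_eq`, `d2_eq`, `d1_eq_sum`, `d1_add_m1`, `sum_d1`, `Lv_rot`, ..) are proved in
`Pool.Agent.Helper38.IA.Basic`.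
-/

set_option autoImplicit false

namespace Pool.Agent.Helper38.IA

open Finset Pool.Agent.Helper93.IA

/-! ## Part M: edge-disjoint perfect matchings (interface `StMAT`) -/

/-- M1 (Hall). Extend by Hall's theorem for `P`: it suffices that `S ⊆ P` has at least `|S|` neighbours in
`Q` (`Finset.all_card_le_biUnion_card_iff_exists_injective` with the index type `P`, i.e. `{x // x ∈ P}`,
and the neighbour sets `Q.filter fun y => (x, y) ∈ G`). Let `S` be nonempty. If `|S| ≤ r`: one vertex has at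
least `|Q| - r ≥ r ≥ |S|` neighbours. If `|S| > r`: every `y ∈ Q` misses at most `r` elements of `P`, so it has a
neighbour in `S`: all of `Q`, and `|Q| = |P| ≥ |S|`. An injective map `P → Q` between sets of the same
size is bijective. Outside `P` put any value (`P` is nonempty, so `Q` and `Y` are). -/
def StM1 : Prop :=
  ∀ (X Y : Type) [Fintype X] [Fintype Y] [DecidableEq X] [DecidableEq Y] (G : Finset (X × Y))
    (P : Finset X) (Q : Finset Y) (r : ℕ), P.Nonempty → P.card = Q.card → 2 * r ≤ P.card →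
    (∀ x ∈ P, (Q.filter fun y => (x, y) ∉ G).card ≤ r) →
    (∀ y ∈ Q, (P.filter fun x => (x, y) ∉ G).card ≤ r) →
    ∃ M : X → Y, Set.BijOn M P Q ∧ ∀ x ∈ P, (x, M x) ∈ G

/-- M2 (`R` edge-disjoint perfect matchings). Induction on `R`. Given `N 1, .., N R` from the induction
hypothesis, apply M1 with `r + R` in place of `r` to `G' = G.filter fun e => ∀ s, ¬ (e.1 ∈ P ∧ N s e.1 = e.2)`:
for `x ∈ P` the additional non-neighbours are the `N s x` (at most `R`); for `y ∈ Q` they are the `x ∈ P` with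
`N s x = y` for some `s`, at most one for each `s` (`N s` is injective on `P`). -/
def StM2 : Prop :=
  ∀ (X Y : Type) [Fintype X] [Fintype Y] [DecidableEq X] [DecidableEq Y] (G : Finset (X × Y))
    (P : Finset X) (Q : Finset Y) (r R : ℕ), P.Nonempty → P.card = Q.card →
    2 * (r + R) ≤ P.card → (∀ x ∈ P, (Q.filter fun y => (x, y) ∉ G).card ≤ r) →
    (∀ y ∈ Q, (P.filter fun x => (x, y) ∉ G).card ≤ r) →
    ∃ N : Fin R → X → Y, (∀ s, Set.BijOn (N s) P Q) ∧ (∀ s, ∀ x ∈ P, (x, N s x) ∈ G) ∧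
      ∀ s s', s ≠ s' → ∀ x ∈ P, N s x ≠ N s' x

/-- The potential of one side: `S` is the set of the processed indices, `B i x` the number of used edges
from `x` to the partner set of `P i`. -/
noncomputable def Ph {X ι : Type} [Fintype ι] [DecidableEq X] [DecidableEq ι] (c : ℝ)
    (P : ι → Finset X) (S : Finset ι) (B : ι → X → ℕ) : ℝ :=
  ∑ i ∈ univ \ S, ∑ x ∈ P i, 2 ^ B i x * c ^ ((univ \ S).filter fun j => j ≠ i ∧ x ∈ P j).card

/-- M3 (averaging). `h s i x ∈ {0, 1}` is the increment of `B i x` if the matching `s` is chosen for the index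
`i0`. Exchange the sums; `2^(B + h) = 2^B (1 + h)` for `h ≤ 1`, so the sum over `s` of the term `(i, x)` is
`2^B c^F' (R + ∑_s h s i x)`, `F'` the exponent for `insert i0 S`. If `x ∈ P i0`, then (for
`i ∉ insert i0 S`) the exponent for `S` is `F = F' + 1` and `R + ∑ h ≤ R + μ = R c`; if `x ∉ P i0`, then
`F = F'` and `∑ h = 0`. In both cases the term is at most `R 2^B c^F`. Finally the terms with `i = i0` of
`Ph c P S B` are `≥ 0`. -/
def StM3 : Prop :=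
  ∀ (X ι : Type) [Fintype ι] [DecidableEq X] [DecidableEq ι] (P : ι → Finset X) (S : Finset ι)
    (i0 : ι) (B : ι → X → ℕ) (R μ : ℕ) (h : Fin R → ι → X → ℕ), 1 ≤ R → i0 ∉ S →
    (∀ s i x, h s i x ≤ 1) → (∀ s i x, x ∉ P i0 → h s i x = 0) →
    (∀ i, i ∉ insert i0 S → ∀ x ∈ P i, x ∈ P i0 → ∑ s, h s i x ≤ μ) →
    ∑ s, Ph (1 + (μ : ℝ) / R) P (insert i0 S) (fun i x => B i x + h s i x)
      ≤ R * Ph (1 + (μ : ℝ) / R) P S B

/-- Number of used edges from `x` to `Q i` (`S` = processed indices, `M j` = chosen matchings). -/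
def BX {X Y ι : Type} [DecidableEq X] [DecidableEq Y] (P : ι → Finset X) (Q : ι → Finset Y)
    (M : ι → X → Y) (S : Finset ι) (i : ι) (x : X) : ℕ :=
  (S.filter fun j => x ∈ P j ∧ M j x ∈ Q i).card

/-- Number of used edges from `y` to `P i`. -/
def BY {X Y ι : Type} [DecidableEq X] [DecidableEq Y] (P : ι → Finset X) (M : ι → X → Y)
    (S : Finset ι) (i : ι) (y : Y) : ℕ :=
  (S.filter fun j => ∃ x ∈ P j, x ∈ P i ∧ M j x = y).card

/-- M4 (update formulas and number of increments). The first two parts: `filter_insert`, and for `j ∈ S` the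
update does not matter (`j ≠ i0`). Third part: `s ↦ N s x` is injective on the `s` with the property, with
values in `Q i ∩ Q i0` (`N s x ∈ Q i0` since `x ∈ P i0`). Fourth part: choose for every such `s` an `x_s ∈ P i0 ∩
P i` with `N s x_s = y`; `x_s = x_s'` implies `N s x_s = y = N s' x_s`, so `s = s'`. -/
def StM4 : Prop :=
  ∀ (X Y ι : Type) [DecidableEq X] [DecidableEq Y] [DecidableEq ι] (P : ι → Finset X)
    (Q : ι → Finset Y) (M : ι → X → Y) (S : Finset ι) (i0 : ι), i0 ∉ S →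
    (∀ (N : X → Y) (i : ι) (x : X), BX P Q (Function.update M i0 N) (insert i0 S) i x
      = BX P Q M S i x + if x ∈ P i0 ∧ N x ∈ Q i then 1 else 0) ∧
    (∀ (N : X → Y) (i : ι) (y : Y), BY P (Function.update M i0 N) (insert i0 S) i y
      = BY P M S i y + if ∃ x ∈ P i0, x ∈ P i ∧ N x = y then 1 else 0) ∧
    ∀ (R : ℕ) (N : Fin R → X → Y), (∀ s, Set.BijOn (N s) (P i0) (Q i0)) →
      (∀ s s', s ≠ s' → ∀ x ∈ P i0, N s x ≠ N s' x) →
      (∀ i x, ∑ s, (if x ∈ P i0 ∧ N s x ∈ Q i then 1 else 0) ≤ (Q i ∩ Q i0).card) ∧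
      ∀ i y, ∑ s, (if ∃ x ∈ P i0, x ∈ P i ∧ N s x = y then 1 else 0) ≤ (P i ∩ P i0).card

/-- The edges of `H` which are not used. -/
def Fr {X Y ι : Type} [DecidableEq X] [DecidableEq Y] (H : Finset (X × Y)) (P : ι → Finset X)
    (M : ι → X → Y) (S : Finset ι) : Finset (X × Y) :=
  H.filter fun e => ∀ j ∈ S, ¬ (e.1 ∈ P j ∧ M j e.1 = e.2)

/-- M5 (degrees in the graph of the unused edges). For `x ∈ P i0`: the `y ∈ Q i0` with `(x, y) ∉ Fr` are those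
with `(x, y) ∉ H` and the values `M j x`, `j ∈ S`, `x ∈ P j`, `M j x ∈ Q i0`: at most `BX` of them (image of
the filter set which defines `BX`). For `y ∈ Q i0`: those with `(x, y) ∉ H` and the `x ∈ P i0` with
`x ∈ P j`, `M j x = y` for some `j ∈ S`; every `j` in the filter set which defines `BY` gives exactly one such `x`
(`M j` is injective on `P j`), the other `j` none. -/
def StM5 : Prop :=
  ∀ (X Y ι : Type) [DecidableEq X] [DecidableEq Y] [DecidableEq ι] (H : Finset (X × Y))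
    (P : ι → Finset X) (Q : ι → Finset Y) (M : ι → X → Y) (S : Finset ι) (i0 : ι) (t : ℕ),
    (∀ j ∈ S, Set.InjOn (M j) (P j)) →
    (∀ x ∈ P i0, ((Q i0).filter fun y => (x, y) ∉ H).card ≤ t →
      ((Q i0).filter fun y => (x, y) ∉ Fr H P M S).card ≤ t + BX P Q M S i0 x) ∧
    ∀ y ∈ Q i0, ((P i0).filter fun x => (x, y) ∉ H).card ≤ t →
      ((P i0).filter fun x => (x, y) ∉ Fr H P M S).card ≤ t + BY P M S i0 y

/-- The matchings of the indices in `S` are perfect, inside `H` and edge-disjoint. -/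
structure Good {X Y ι : Type} [DecidableEq X] [DecidableEq Y] (H : Finset (X × Y))
    (P : ι → Finset X) (Q : ι → Finset Y) (S : Finset ι) (M : ι → X → Y) : Prop where
  bij : ∀ i ∈ S, Set.BijOn (M i) (P i) (Q i)
  inH : ∀ i ∈ S, ∀ x ∈ P i, (x, M i x) ∈ H
  dis : ∀ i ∈ S, ∀ j ∈ S, i ≠ j → ∀ x ∈ P i, x ∈ P j → M i x ≠ M j x

/-- M6 (one step). Every term of the potential is `≥ 0`, and the term of `(i0, x)` is at least `2^(BX i0 x)`
(`c ≥ 1`), so `2^(BX i0 x) < 2^b`, `BX i0 x < b` for `x ∈ P i0`, and `BY i0 y < b` for `y ∈ Q i0`. By M5 the graph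
`Fr H P M S` satisfies the hypotheses of M2 with `r = t + b` (`P i0` is nonempty: `2 (t + b + R) ≥ 2`). This
gives `R` edge-disjoint perfect matchings `N s`. Apply M3 twice: with `P`, `B = BX P Q M S`, `h s i x = if
x ∈ P i0 ∧ N s x ∈ Q i then 1 else 0`; and with `Q` in place of `P`, `B = BY P M S`, `h s i y = if
∃ x ∈ P i0, x ∈ P i ∧ N s x = y then 1 else 0` (it is `0` for `y ∉ Q i0` because `N s` maps `P i0` to `Q i0`);
the sums over `s` are at most `μ` by M4. Adding the two inequalities, for some `s` (`R ≥ 1`) the sum of the two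
new potentials is at most the old sum. `N = N s`; `Good`: the edges `(x, N s x)`, `x ∈ P i0`, are in
`Fr H P M S`, so in `H` and different from the edges of `M j`, `j ∈ S`. -/
def StM6 : Prop :=
  ∀ (X Y ι : Type) [Fintype X] [Fintype Y] [Fintype ι] [DecidableEq X] [DecidableEq Y]
    [DecidableEq ι] (H : Finset (X × Y)) (P : ι → Finset X) (Q : ι → Finset Y)
    (t b R μ : ℕ) (S : Finset ι) (i0 : ι) (M : ι → X → Y), 1 ≤ R →
    (∀ i, (P i).card = (Q i).card) → (∀ i, 2 * (t + b + R) ≤ (P i).card) →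
    (∀ i, ∀ x ∈ P i, ((Q i).filter fun y => (x, y) ∉ H).card ≤ t) →
    (∀ i, ∀ y ∈ Q i, ((P i).filter fun x => (x, y) ∉ H).card ≤ t) →
    (∀ i j, i ≠ j → (P i ∩ P j).card ≤ μ) → (∀ i j, i ≠ j → (Q i ∩ Q j).card ≤ μ) →
    i0 ∉ S → Good H P Q S M →
    Ph (1 + (μ : ℝ) / R) P S (BX P Q M S) + Ph (1 + (μ : ℝ) / R) Q S (BY P M S) < 2 ^ b →
    ∃ N : X → Y, Good H P Q (insert i0 S) (Function.update M i0 N) ∧
      Ph (1 + (μ : ℝ) / R) P (insert i0 S) (BX P Q (Function.update M i0 N) (insert i0 S))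
        + Ph (1 + (μ : ℝ) / R) Q (insert i0 S) (BY P (Function.update M i0 N) (insert i0 S))
      ≤ Ph (1 + (μ : ℝ) / R) P S (BX P Q M S) + Ph (1 + (μ : ℝ) / R) Q S (BY P M S)

/-! MODULE M7: `StM6 → StMAT`. If `ι` is empty everything is trivial. Otherwise fix any `M0 : ι → X → Y`
(`P i` is nonempty for all `i`, so `Y` is nonempty). For `S = ∅`: `BX = BY = 0` and the exponents are at most `D`
(`c ≥ 1`), so the sum of the potentials is at most `|ι| (|X| + |Y|) c^D < 2^b`. Induction over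
`S` (`Finset.induction_on`, to `S = univ`): there is `M` with `Good H P Q S M` and potential `< 2^b`, by M6. -/

/-! ## Linear algebra for `StBLN` and `StBLX` -/

/-- The Laplacian of a weighted graph. -/
noncomputable def Lap {V : Type} [Fintype V] (W : V → V → ℝ) (p : V → ℝ) (v : V) : ℝ :=
  ∑ y, W v y * (p v - p y)

/-- L1. The linear map `T p = fun v => Lap W p v + ∑ y, p y` on `V → ℝ` is injective: `T p = 0`; summing over
`v` (`∑_v Lap W p v = 0` by symmetry of `W`) `|V| ∑ p = 0`, so `∑ p = 0` and `Lap W p = 0`, so `p` is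
constant, so `p = 0`. So `T` is surjective (`LinearMap.injective_iff_surjective`); for `T p = b` the same
summation gives `∑ p = 0` and `Lap W p = b`. -/
def StL1 : Prop :=
  ∀ (V : Type) [Fintype V] [Nonempty V] (W : V → V → ℝ) (b : V → ℝ),
    (∀ v y, W v y = W y v) →
    (∀ p : V → ℝ, (∀ v, Lap W p v = 0) → ∀ v y, p v = p y) → ∑ v, b v = 0 →
    ∃ p : V → ℝ, ∑ v, p v = 0 ∧ ∀ v, Lap W p v = b v

/-- L2 (diagonal dominance). Let `|p v|` be maximal. As `∑ p = 0`, `Lap W p v = deg v * p v - ∑_y W v y p y =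
deg v * p v + ∑_y (1 - W v y) p y = (deg v + 1) p v + ∑_{y ≠ v} (1 - W v y) p y`, and the last sum is in
absolute value at most `(|V| - 1 - deg v) |p v|`. So `s ≥ |Lap W p v| ≥ (2 deg v + 2 - |V|) |p v| ≥ δ |p v|`. -/
def StL2 : Prop :=
  ∀ (V : Type) [Fintype V] (W : V → V → ℝ) (p : V → ℝ) (δ s : ℝ),
    (∀ v y, 0 ≤ W v y ∧ W v y ≤ 1) → (∀ v, W v v = 0) → 0 < δ →
    (∀ v, Fintype.card V + δ ≤ 2 * ∑ y, W v y + 2) → ∑ v, p v = 0 →
    (∀ v, |Lap W p v| ≤ s) → ∀ v, δ * |p v| ≤ s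

/-- L3 (oscillation). `I` = inner vertices, the others are outer; all the edges are between inner and
outer. Write `deg v = ∑ y, W v y`. Let `M` be the maximum of `p` over `I` (attained at `u1`), `M'` the
minimum. For outer `v`: `deg v * p v = ∑_{u ∈ I} W v u p u + Lap W p v`, so
`p v ≤ M - (1/deg v) ∑_{u ∈ I} W v u (M - p u) + βo ≤ M - (1/(2m)) ∑_{u ∈ I} W v u (M - p u) + βo`. At `u1`:
`deg u1 * M = ∑_{v outer} W u1 v p v + Lap W p u1 ≤ deg u1 (M + βo + βi) - (1/(2m)) ∑_{v outer} W u1 v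
∑_{u ∈ I} W v u (M - p u)`. Exchange the sums, use the lower bound for the codegrees and `deg u1 ≤ 2n`:
`(55/100) n ∑_{u ∈ I} (M - p u) ≤ 4 m n (βo + βi)`. Apply this to `-p` as well:
`(55/100) n ∑_{u ∈ I} (p u - M') ≤ 4 m n (βo + βi)`. Adding, with `|I| = 3 m`: `1.65 (M - M') ≤ 8 (βo + βi)`, so
`M - M' ≤ 5 (βo + βi)`. By the formula for outer `v`: `M' - βo ≤ p v ≤ M + βo`. So all the differences are at
most `5 (βo + βi) + 2 βo`. -/
def StL3 : Prop :=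
  ∀ (V : Type) [Fintype V] [DecidableEq V] (I : Finset V) (W : V → V → ℝ) (p : V → ℝ)
    (m n βo βi : ℝ), (∀ v y, 0 ≤ W v y ∧ W v y ≤ 1) → (∀ v y, W v y = W y v) →
    (∀ v ∈ I, ∀ y ∈ I, W v y = 0) → (∀ v, v ∉ I → ∀ y, y ∉ I → W v y = 0) → 0 < m → 0 < n →
    0 ≤ βo → 0 ≤ βi → (∀ v, v ∉ I → 0 < ∑ y, W v y ∧ ∑ y, W v y ≤ 2 * m) →
    (∀ v ∈ I, 0 < ∑ y, W v y ∧ ∑ y, W v y ≤ 2 * n) →
    (∀ u ∈ I, ∀ u' ∈ I, 55 / 100 * n ≤ ∑ v, W u v * W v u') → (I.card : ℝ) = 3 * m →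
    (∀ v, v ∉ I → |Lap W p v| ≤ βo * ∑ y, W v y) → (∀ v ∈ I, |Lap W p v| ≤ βi * ∑ y, W v y) →
    ∀ x y, |p x - p y| ≤ 7 * (βo + βi)

/-! ## Translation to tripartite graphs -/

/-- The adjacency matrix of the tripartite graph `(A, B, C)` on `α ⊕ β ⊕ γ`. -/
noncomputable def Wt {α β γ : Type} [DecidableEq α] [DecidableEq β] [DecidableEq γ]
    (A : Finset (α × β)) (B : Finset (β × γ)) (C : Finset (γ × α)) :
    α ⊕ β ⊕ γ → α ⊕ β ⊕ γ → ℝ :=
  Sum.elim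
    (fun a => Sum.elim (fun _ => 0) (Sum.elim (fun b => if (a, b) ∈ A then 1 else 0)
      (fun c => if (c, a) ∈ C then 1 else 0)))
    (Sum.elim
      (fun b => Sum.elim (fun a => if (a, b) ∈ A then 1 else 0) (Sum.elim (fun _ => 0)
        (fun c => if (b, c) ∈ B then 1 else 0)))
      (fun c => Sum.elim (fun a => if (c, a) ∈ C then 1 else 0)
        (Sum.elim (fun b => if (b, c) ∈ B then 1 else 0) (fun _ => 0))))

/-- T0 (translation facts). All by cases on the vertices, `Fintype.sum_sum_type`, `Sum.elim_inl`,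
`Sum.elim_inr` and `d1_eq_sum`, `d2_eq_sum`. The last three: out-sum minus in-sum of the weights
`t + r (p x - p y)` on the edges `x → y`. -/
def StT0 : Prop :=
  ∀ (α β γ : Type) [Fintype α] [Fintype β] [Fintype γ] [DecidableEq α] [DecidableEq β]
    [DecidableEq γ] (A : Finset (α × β)) (B : Finset (β × γ)) (C : Finset (γ × α)),
    (∀ v y, Wt A B C v y = Wt A B C y v) ∧ (∀ v y, 0 ≤ Wt A B C v y ∧ Wt A B C v y ≤ 1) ∧
    (∀ v, Wt A B C v v = 0) ∧
    (∀ a, ∑ y, Wt A B C (Sum.inl a) y = d1 A a + d2 C a) ∧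
    (∀ b, ∑ y, Wt A B C (Sum.inr (Sum.inl b)) y = d1 B b + d2 A b) ∧
    (∀ c, ∑ y, Wt A B C (Sum.inr (Sum.inr c)) y = d1 C c + d2 B c) ∧
    ∀ (p : α ⊕ β ⊕ γ → ℝ) (t r : ℝ),
      (∀ a, ∑ b, (if (a, b) ∈ A then t + r * (p (Sum.inl a) - p (Sum.inr (Sum.inl b))) else 0)
          - ∑ c, (if (c, a) ∈ C then t + r * (p (Sum.inr (Sum.inr c)) - p (Sum.inl a)) else 0)
        = t * (d1 A a - d2 C a) + r * Lap (Wt A B C) p (Sum.inl a)) ∧
      (∀ b, ∑ c, (if (b, c) ∈ B then t + r * (p (Sum.inr (Sum.inl b)) - p (Sum.inr (Sum.inr c)))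
            else 0)
          - ∑ a, (if (a, b) ∈ A then t + r * (p (Sum.inl a) - p (Sum.inr (Sum.inl b))) else 0)
        = t * (d1 B b - d2 A b) + r * Lap (Wt A B C) p (Sum.inr (Sum.inl b))) ∧
      ∀ c, ∑ a, (if (c, a) ∈ C then t + r * (p (Sum.inr (Sum.inr c)) - p (Sum.inl a)) else 0)
          - ∑ b, (if (b, c) ∈ B then t + r * (p (Sum.inr (Sum.inl b)) - p (Sum.inr (Sum.inr c)))
            else 0)
        = t * (d1 C c - d2 B c) + r * Lap (Wt A B C) p (Sum.inr (Sum.inr c))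

/-- T2 (codegrees). Each of the sums `∑ v, Wt u v * Wt v u'` splits into three sums of products of
indicators, one of which is the card on the left (`Finset.sum_boole`, `ite_and`), the others are `≥ 0`. -/
def StT2 : Prop :=
  ∀ (α β γ : Type) [Fintype α] [Fintype β] [Fintype γ] [DecidableEq α] [DecidableEq β]
    [DecidableEq γ] (A : Finset (α × β)) (B : Finset (β × γ)) (C : Finset (γ × α)),
    (∀ a a', ((univ.filter fun b => (a, b) ∈ A ∧ (a', b) ∈ A).card : ℝ)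
      ≤ ∑ v, Wt A B C (Sum.inl a) v * Wt A B C v (Sum.inl a')) ∧
    (∀ b b', ((univ.filter fun c => (b, c) ∈ B ∧ (b', c) ∈ B).card : ℝ)
      ≤ ∑ v, Wt A B C (Sum.inr (Sum.inl b)) v * Wt A B C v (Sum.inr (Sum.inl b'))) ∧
    (∀ c c', ((univ.filter fun a => (c, a) ∈ C ∧ (c', a) ∈ C).card : ℝ)
      ≤ ∑ v, Wt A B C (Sum.inr (Sum.inr c)) v * Wt A B C v (Sum.inr (Sum.inr c'))) ∧
    (∀ a b, ((univ.filter fun c => (c, a) ∈ C ∧ (b, c) ∈ B).card : ℝ)
        ≤ ∑ v, Wt A B C (Sum.inl a) v * Wt A B C v (Sum.inr (Sum.inl b)) ∧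
      ((univ.filter fun c => (c, a) ∈ C ∧ (b, c) ∈ B).card : ℝ)
        ≤ ∑ v, Wt A B C (Sum.inr (Sum.inl b)) v * Wt A B C v (Sum.inl a)) ∧
    (∀ b c, ((univ.filter fun a => (a, b) ∈ A ∧ (c, a) ∈ C).card : ℝ)
        ≤ ∑ v, Wt A B C (Sum.inr (Sum.inl b)) v * Wt A B C v (Sum.inr (Sum.inr c)) ∧
      ((univ.filter fun a => (a, b) ∈ A ∧ (c, a) ∈ C).card : ℝ)
        ≤ ∑ v, Wt A B C (Sum.inr (Sum.inr c)) v * Wt A B C v (Sum.inr (Sum.inl b))) ∧
    ∀ c a, ((univ.filter fun b => (b, c) ∈ B ∧ (a, b) ∈ A).card : ℝ)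
        ≤ ∑ v, Wt A B C (Sum.inr (Sum.inr c)) v * Wt A B C v (Sum.inl a) ∧
      ((univ.filter fun b => (b, c) ∈ B ∧ (a, b) ∈ A).card : ℝ)
        ≤ ∑ v, Wt A B C (Sum.inl a) v * Wt A B C v (Sum.inr (Sum.inr c))

/-! MODULE T1: `StL1 → StL2 → StT0 → StBLN`. `V = α ⊕ β ⊕ γ`, `W = Wt A B C`, `|V| = 3n`. By `Near` and
`d1_add_m1`, `d2_add_m2` every `d1`, `d2` is at least `78/100 n`, so `3n + 12/100 n ≤ 2 deg v + 2`: L2 applies
with `δ = 12/100 n`. Rigidity for L1: if `Lap W p = 0`, subtract the mean of `p` (the Laplacian does not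
change), L2 with `s = 0` gives `p = 0` after the subtraction. The right side: `b = d1 A a - d2 C a` at `a`,
`d1 B b - d2 A b` at `b`, `d1 C c - d2 B c` at `c`; the sum is `0` by `sum_d1`, `sum_d2`. L1 gives `p`, L2 with `s = b n`
gives `|p v| ≤ b / 0.12 ≤ 9 b`. Put `t = 18 b ≤ 1`, `wA a b' = t + (1 - t) (p a - p b')` for all `a`, `b'`, and so
on: `|p a - p b'| ≤ 18 b = t`, so `0 ≤ t - (1-t) t ≤ w ≤ 2 t = 36 b ≤ 40 b`. Balance: by T0 (with weights
`t + (1-t) (..)`), out-sum minus in-sum of `w` is `t b + (1 - t) b = b` at every vertex, and the out-sum minus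
in-sum of `1` is `b` too (`d1_eq_sum`, `d2_eq_sum`). (The real number `b` of `StBLN` and the vector `b` have
the same name here only.) -/

/-! ## Part F -/

/-- `StFZ` for arbitrary types of size `n`. -/
def FZT : Prop :=
  ∀ (α β γ : Type) [Fintype α] [Fintype β] [Fintype γ] (n : ℕ) (k : ℝ), Fintype.card α = n →
    Fintype.card β = n → Fintype.card γ = n → ∀ (A : α → β → ℝ) (B : β → γ → ℝ)
    (C : γ → α → ℝ) (u : α → ℝ) (v : β → ℝ) (w : γ → ℝ),
    (∀ i j, 0 ≤ A i j ∧ A i j ≤ 1) → (∀ i j, 0 ≤ B i j ∧ B i j ≤ 1) →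
    (∀ i j, 0 ≤ C i j ∧ C i j ≤ 1) →
    (∀ r, ∑ c, A r c = n - u r) → (∀ r, ∑ s, C s r = n - u r) → (∀ c, ∑ s, B c s = n - v c) →
    (∀ c, ∑ r, A r c = n - v c) → (∀ s, ∑ r, C s r = n - w s) → (∀ s, ∑ c, B c s = n - w s) →
    (∀ r, u r ≤ k) → (∀ c, v c ≤ k) → (∀ s, w s ≤ k) → 0 < n → 4 * k < n →
    6 * k * ((n : ℝ) ^ 3 - 3 * n * ∑ r, u r + 3 * k * ∑ r, u r) < ((n : ℝ) ^ 2 - ∑ r, u r) ^ 2 →
    ∃ x : α → β → γ → ℝ, (∀ r c s, 0 ≤ x r c s) ∧
      (∀ r c s, x r c s ≤ 3 / (n - 2 * k) * (A r c * B c s * C s r)) ∧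
      (∀ r c, ∑ s, x r c s = A r c) ∧ (∀ c s, ∑ r, x r c s = B c s) ∧
      ∀ s r, ∑ c, x r c s = C s r

/-- F1 (transport). Equivalences `eα : α ≃ Fin n`, `eβ`, `eγ` (`Fintype.equivFinOfCardEq`); apply FZ to
`fun i j => A (eα.symm i) (eβ.symm j)` etc., put `x a b c = x' (eα a) (eβ b) (eγ c)`; the sums by
`Equiv.sum_comp`. -/
def StF1 : Prop := StFZ → FZT

/-- F2 (numbers). Put `x = k/n = κ + ε + 40 b`, `h = U/n^2`, `κ - ε ≤ h ≤ x`, `x ≤ 20/97 + 41·10^(-7)`. The inequality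
divided by `n^4`: `6 x (1 - 3h + 3 x h) < (1-h)^2`. With `h = x - d`, `0 ≤ d ≤ 42 ε` (as `x - h ≤ 2ε + 40 b`), the
difference of the two sides is `G = 6x(1-3h+3xh) - (1-h)^2 = (18x^3 - 19x^2 + 8x - 1) + d (18 x (1-x) - 2 (1-x)) - d^2`
`≤ (18x^3 - 19x^2 + 8x - 1) + 5 d`. The cubic is increasing (its derivative `54x^2 - 38x + 8` has negative
discriminant) and at `x0 = 20/97 + 41·10^(-7)` it is `≤ -4.6·10^(-4)` (write `f(x) - f(x0) = (x - x0)
(18(x^2 + x x0 + x0^2) - 19 (x + x0) + 8)`, the second factor is positive), while `5 d ≤ 210·10^(-7)`. Also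
`4 k = 4 x n < n`. -/
def StF2 : Prop :=
  ∀ n κ ε b U k : ℝ, 0 < n → 0 ≤ κ → κ ≤ 20 / 97 → ε = 1 / 10 ^ 7 → 0 ≤ b → b ≤ ε →
    k = (κ + ε + 40 * b) * n → (κ - ε) * n ^ 2 ≤ U → U ≤ k * n →
    4 * k < n ∧ 6 * k * (n ^ 3 - 3 * n * U + 3 * k * U) < (n ^ 2 - U) ^ 2

/-- The conclusion of `StFRN`. -/
def FRNC : Prop :=
  ∃ ε : ℝ, 0 < ε ∧ ε ≤ 1 / 1000 ∧
    ∀ (α β γ : Type) [Fintype α] [Fintype β] [Fintype γ] [DecidableEq α] [DecidableEq β]
    [DecidableEq γ] (n : ℕ), 0 < n → Fintype.card α = n → Fintype.card β = n →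
    Fintype.card γ = n → ∀ (A : Finset (α × β)) (B : Finset (β × γ)) (C : Finset (γ × α))
    (κ b : ℝ), 0 ≤ κ → κ ≤ 20 / 97 → 0 ≤ b → b ≤ ε →
    Near A B C univ univ univ univ univ univ ((κ - ε) * n) ((κ + ε) * n) → Imb A B C (b * n) →
    ∃ x : α → β → γ → ℝ, (∀ a b' c, 0 ≤ x a b' c) ∧ (∀ a b' c, x a b' c ≤ 6 / n) ∧
      (∀ a b' c, x a b' c ≠ 0 → (a, b') ∈ A ∧ (b', c) ∈ B ∧ (c, a) ∈ C) ∧
      (∀ a b', (a, b') ∈ A → 1 - 40 * b ≤ ∑ c, x a b' c) ∧ (∀ a b', ∑ c, x a b' c ≤ 1) ∧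
      (∀ b' c, (b', c) ∈ B → 1 - 40 * b ≤ ∑ a, x a b' c) ∧ (∀ b' c, ∑ a, x a b' c ≤ 1) ∧
      (∀ c a, (c, a) ∈ C → 1 - 40 * b ≤ ∑ b', x a b' c) ∧ ∀ c a, ∑ b', x a b' c ≤ 1

/-- F3 (assembly of FRN), `ε = 10^(-7)`. BLN applies (`(κ + ε) n ≤ 22/100 n`, `b ≤ 1/40`, `-1 ≤ m1`): weights `w`,
`0 ≤ w ≤ 40 b`. Put `gA a b' = if (a,b') ∈ A then 1 - wA a b' else 0` and the same for `B`, `C`; they are in
`[0,1]`. `u a = n - ∑_b' gA a b'`, which is also `n - ∑_c gC c a` by the balance; the same for `v`, `w'`. By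
`d1_add_m1` and `Near`: `u a = m1 A univ a + ∑_{b' : (a,b') ∈ A} wA a b'` is between `(κ - ε) n` and
`k = (κ + ε + 40 b) n`; the same for the other classes. `U = ∑ u` is between `(κ - ε) n^2` and `k n`. F2 gives
the two numerical hypotheses of `FZT`. The `x` of `FZT`: `x ≤ 3/(n - 2k) * (product of numbers in [0,1])
≤ 6/n` as `n - 2k ≥ n/2`; `x ≠ 0` implies that the product is not `0`, so the three pairs are edges; the sums are
the `g`'s, which are `≤ 1` and on edges `≥ 1 - 40 b`. -/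
def StF3 : Prop := FZT → StF2 → StBLN → FRNC

/-! ## `StBLX` -/

/-- The right side of the Laplace equation at `a`: minus (inner out-degree - inner in-degree)/ρ minus
(crossing out-degree - crossing in-degree). -/
noncomputable def bv {α β γ : Type} [DecidableEq α] [DecidableEq β] [DecidableEq γ] (ρ : ℝ)
    (A : Finset (α × β)) (C : Finset (γ × α)) (U1 : Finset α) (U2 : Finset β) (U3 : Finset γ)
    (a : α) : ℝ :=
  -(((d1 (ins A U1 U2) a : ℝ) - d2 (ins C U3 U1) a) / ρ)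
    - ((d1 (crs A U1 U2) a : ℝ) - d2 (crs C U3 U1) a)

/-- X1 (crossing degrees). `m ≥ ξ n - 1 ≥ 999/1000 ξ n`, so `g n ≤ m/4000`; `ε = ρ/10000 ≤ 1/40000`. Outer `a`: the
crossing `A`-edges at `a` are the `(a, b) ∈ A` with `b ∈ U2`; there are `m` vertices in `U2`, at most
`(κ + ε) m` of them are not `A0`-neighbours (`nearU`), and at most `g n` pairs `(a, b)` are in `A0 \ A` (`smA`); so
at least `(1 - κ - ε) m - g n ≥ 3/4 m` and at most `m`. The same for `C`. Inner `a`: the crossing `A`-edges at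
`a` are the `(a, b) ∈ A`, `b ∉ U2`: at most `n`, at least `n - m - (κ + ε) n - g n ≥ 3/4 n` (`near`; `m ≤ ξ n ≤
n/1000`). The same for `C`. -/
def StX1 : Prop :=
  ∀ ξ g ρ : ℝ, 0 < ξ → ξ ≤ 1 / 1000 → 0 < g → g ≤ ξ / 5000 → 0 < ρ → ρ ≤ 1 / 4 →
    ∀ (α β γ : Type) [Fintype α] [Fintype β] [Fintype γ] [DecidableEq α] [DecidableEq β]
      [DecidableEq γ] (κ : ℝ) (n m : ℕ) (A0 A : Finset (α × β)) (B0 B : Finset (β × γ))
      (C0 C : Finset (γ × α)) (U1 W1 : Finset α) (U2 W2 : Finset β) (U3 W3 : Finset γ),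
      0 ≤ κ → κ ≤ 20 / 97 → 1000 ≤ ξ * n →
      Lv κ (ρ / 10000) g ξ n m A0 A B0 B C0 C U1 W1 U2 W2 U3 W3 →
      0 < m ∧ (∀ a, a ∉ U1 →
          3 / 2 * (m : ℝ) ≤ (d1 (crs A U1 U2) a : ℝ) + d2 (crs C U3 U1) a ∧
          (d1 (crs A U1 U2) a : ℝ) + d2 (crs C U3 U1) a ≤ 2 * m) ∧
        ∀ a ∈ U1, 3 / 2 * (n : ℝ) ≤ (d1 (crs A U1 U2) a : ℝ) + d2 (crs C U3 U1) a ∧
          (d1 (crs A U1 U2) a : ℝ) + d2 (crs C U3 U1) a ≤ 2 * n

/-- X2 (crossing codegrees of inner vertices). For `a, a' ∈ U1`: the `b ∉ U2` with `(a, b), (a', b) ∈ A` number at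
least `n - m - 2 (κ + ε) n - 2 g n ≥ 55/100 n` (`near`, `smA`). For `a ∈ U1`, `b ∈ U2`: the same with the
`c ∉ U3` with `(c, a) ∈ C`, `(b, c) ∈ B`. -/
def StX2 : Prop :=
  ∀ ξ g ρ : ℝ, 0 < ξ → ξ ≤ 1 / 1000 → 0 < g → g ≤ ξ / 5000 → 0 < ρ → ρ ≤ 1 / 4 →
    ∀ (α β γ : Type) [Fintype α] [Fintype β] [Fintype γ] [DecidableEq α] [DecidableEq β]
      [DecidableEq γ] (κ : ℝ) (n m : ℕ) (A0 A : Finset (α × β)) (B0 B : Finset (β × γ))
      (C0 C : Finset (γ × α)) (U1 W1 : Finset α) (U2 W2 : Finset β) (U3 W3 : Finset γ),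
      0 ≤ κ → κ ≤ 20 / 97 → 1000 ≤ ξ * n →
      Lv κ (ρ / 10000) g ξ n m A0 A B0 B C0 C U1 W1 U2 W2 U3 W3 →
      (∀ a ∈ U1, ∀ a' ∈ U1, 55 / 100 * (n : ℝ)
        ≤ (univ.filter fun b => (a, b) ∈ crs A U1 U2 ∧ (a', b) ∈ crs A U1 U2).card) ∧
      ∀ a ∈ U1, ∀ b ∈ U2, 55 / 100 * (n : ℝ)
        ≤ (univ.filter fun c => (c, a) ∈ crs C U3 U1 ∧ (b, c) ∈ crs B U2 U3).card

/-- X3 (size of the right side). Put `ε = ρ/10000`. Outer `a`: no inner edges, and each of the two crossing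
degrees is in `[(1 - κ - ε) m - g n, (1 - κ + ε) m]` (`nearU`: `(1-κ-ε) m ≤ |{b ∈ U2 : (a,b) ∈ A0}| ≤
(1-κ+ε) m`, `smA`), so `|bv| ≤ 2 ε m + g n ≤ (2/40000 + 1/4000) m ≤ 1.5 m/1000`. Inner `a`: every `A`-edge at `a` is
either inner or crossing, so by `bal` (inner out - inner in) + (crossing out - crossing in) = 0, so
`bv = I - I/ρ`, `I = ` inner out - inner in; `A` and `A0` agree inside `U` (`agA`, `agC`), so `|I| ≤ 2 ε m` by
`nearU` (`a ∈ U1`, the inner out-neighbours are the `b ∈ U2` with `(a,b) ∈ A0`), and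
`|bv| ≤ 2 ε m (1/ρ + 1) = 2 m (1 + ρ)/10000 ≤ m/4000 ≤ n/4000000`. Use X1 for the lower bounds on the
degrees on the right. -/
def StX3 : Prop :=
  ∀ ξ g ρ : ℝ, 0 < ξ → ξ ≤ 1 / 1000 → 0 < g → g ≤ ξ / 5000 → 0 < ρ → ρ ≤ 1 / 4 →
    ∀ (α β γ : Type) [Fintype α] [Fintype β] [Fintype γ] [DecidableEq α] [DecidableEq β]
      [DecidableEq γ] (κ : ℝ) (n m : ℕ) (A0 A : Finset (α × β)) (B0 B : Finset (β × γ))
      (C0 C : Finset (γ × α)) (U1 W1 : Finset α) (U2 W2 : Finset β) (U3 W3 : Finset γ),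
      0 ≤ κ → κ ≤ 20 / 97 → 1000 ≤ ξ * n →
      Lv κ (ρ / 10000) g ξ n m A0 A B0 B C0 C U1 W1 U2 W2 U3 W3 →
      (∀ a, a ∉ U1 → |bv ρ A C U1 U2 U3 a|
        ≤ 1 / 1000 * ((d1 (crs A U1 U2) a : ℝ) + d2 (crs C U3 U1) a)) ∧
      ∀ a ∈ U1, |bv ρ A C U1 U2 U3 a|
        ≤ 1 / 10000 * ((d1 (crs A U1 U2) a : ℝ) + d2 (crs C U3 U1) a)

/-- The conclusion of `StX4`. -/
def X4C : Prop :=
  ∀ ξ g ρ : ℝ, 0 < ξ → ξ ≤ 1 / 1000 → 0 < g → g ≤ ξ / 5000 → 0 < ρ → ρ ≤ 1 / 4 →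
    ∀ (α β γ : Type) [Fintype α] [Fintype β] [Fintype γ] [DecidableEq α] [DecidableEq β]
      [DecidableEq γ] (κ : ℝ) (n m : ℕ) (A0 A : Finset (α × β)) (B0 B : Finset (β × γ))
      (C0 C : Finset (γ × α)) (U1 W1 : Finset α) (U2 W2 : Finset β) (U3 W3 : Finset γ),
      0 ≤ κ → κ ≤ 20 / 97 → 1000 ≤ ξ * n →
      Lv κ (ρ / 10000) g ξ n m A0 A B0 B C0 C U1 W1 U2 W2 U3 W3 →
      ∃ I : Finset (α ⊕ β ⊕ γ), (∀ a, Sum.inl a ∈ I ↔ a ∈ U1) ∧
        (∀ b, Sum.inr (Sum.inl b) ∈ I ↔ b ∈ U2) ∧ (∀ c, Sum.inr (Sum.inr c) ∈ I ↔ c ∈ U3) ∧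
        (I.card : ℝ) = 3 * m ∧
        (∀ v ∈ I, ∀ y ∈ I, Wt (crs A U1 U2) (crs B U2 U3) (crs C U3 U1) v y = 0) ∧
        (∀ v, v ∉ I → ∀ y, y ∉ I → Wt (crs A U1 U2) (crs B U2 U3) (crs C U3 U1) v y = 0) ∧
        (∀ v, v ∉ I → 0 < ∑ y, Wt (crs A U1 U2) (crs B U2 U3) (crs C U3 U1) v y ∧
          ∑ y, Wt (crs A U1 U2) (crs B U2 U3) (crs C U3 U1) v y ≤ 2 * m) ∧
        (∀ v ∈ I, 0 < ∑ y, Wt (crs A U1 U2) (crs B U2 U3) (crs C U3 U1) v y ∧
          ∑ y, Wt (crs A U1 U2) (crs B U2 U3) (crs C U3 U1) v y ≤ 2 * n) ∧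
        ∀ u ∈ I, ∀ u' ∈ I, 55 / 100 * (n : ℝ)
          ≤ ∑ v, Wt (crs A U1 U2) (crs B U2 U3) (crs C U3 U1) u v
            * Wt (crs A U1 U2) (crs B U2 U3) (crs C U3 U1) v u'

/-- X4 (the graph on the sum type satisfies the hypotheses of L3). `W = Wt (crs A U1 U2) (crs B U2 U3)
(crs C U3 U1)`, `I` = the image of the inner vertices, here as a filter with `Sum.elim`. Apply `X1`, `X2` to the
three rotations of the data (`Lv_rot`), `T0` for the degrees, `T2` for the codegrees. `|I| = 3m`. An edge of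
`W` between two inner or two outer vertices does not exist by definition of `crs`. -/
def StX4 : Prop := StT0 → StT2 → StX1 → StX2 → X4C

/-! MODULE X5: `StL1 → StL3 → StT0 → StX1 → StX3 → X4C → StBLX` (theorem `hX5`). `ε = ρ/10000`, `n0 = ⌈1000/ξ⌉₊` (at least `1000` since `ξ ≤ 1`, so `n > 0`). `V = α ⊕ β ⊕ γ`, nonempty.
`b` = `bv ρ A C U1 U2 U3` on `α`, `bv ρ B A U2 U3 U1` on `β`, `bv ρ C B U3 U1 U2` on `γ`; the sum is `0` by `sum_d1`, `sum_d2`.
Rigidity for L1: L3 with `βo = βi = 0`. L1 gives `p`; L3 with `βo = 1/1000`, `βi = 1/10000` (X3 for the three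
rotations, T0 for the degrees) gives `|p x - p y| ≤ 7 * (11/10000) ≤ 1/100`. Put
`rA a b = 1 + (p a - p b)` etc. for all pairs. The balance: T0 with `t = r = 1` (and `A` replaced by
`crs A U1 U2` etc.): crossing out-sum minus in-sum of `r` is `(crossing out - crossing in) + Lap p =
(crossing out - crossing in) + bv = -(inner out - inner in)/ρ`; multiply by `ρ`. -/

/-! Check: the conclusion of F3 is the one it should be. -/

example : StFRN = (StFZ → StBLN → FRNC) := rfl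

end Pool.Agent.Helper38.IA
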