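import Pool.Agent.Helper17.IAN.StN
import Pool.Agent.Helper38.IA.Basic

/-!
# Project IA, part N (nibble): concentration, one round, iteration (`StNIB` from `StMEAN` and `StBRN`)

The random choice of one round (`wt`, `used`, `covA`, `covB`, `covC`, `Pr`, `Dat`, `q`, `StMEAN`) is defined in
`Pool.Agent.Helper17.IAN.Def`, `StPCK` in `Pool.Agent.Helper17.IAN.StN`.
-/

set_option autoImplicit false

namespace Pool.Agent.Helper38.IA

open Finset Pool.Agent.Helper93.IA Pool.Agent.Helper17.IAN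

/-- The total weight of the events that happen. -/
noncomputable def Fv {I Ω : Type} [Fintype I] (E : I → Ω → Prop) (g : I → ℝ) (σ : Ω) : ℝ :=
  open Classical in ∑ i, if E i σ then g i else 0

/-- Locality of a family of events: if one coordinate `e` is changed from `none` to `some u`, at most two of
the events change their status; and for `e` outside a set `L` of at most `2 n` coordinates this happens
for at most two values `u` only. -/
def Loc {α β γ I : Type} [DecidableEq α] [DecidableEq β] (n : ℕ)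
    (E : I → (α × β → Option γ) → Prop) : Prop :=
  ∃ L : Finset (α × β), L.card ≤ 2 * n ∧ ∀ (σ : α × β → Option γ) (e : α × β),
    (∀ u : γ, ∃ S : Finset I, S.card ≤ 2 ∧ ∀ i,
      ¬ (E i (Function.update σ e (some u)) ↔ E i (Function.update σ e none)) → i ∈ S) ∧
    (e ∉ L → ∃ S : Finset γ, S.card ≤ 2 ∧ ∀ u i,
      ¬ (E i (Function.update σ e (some u)) ↔ E i (Function.update σ e none)) → u ∈ S)

/-- The same for a real function. -/
def Sml {α β γ : Type} [DecidableEq α] [DecidableEq β] (n : ℕ)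
    (f : (α × β → Option γ) → ℝ) : Prop :=
  ∃ L : Finset (α × β), L.card ≤ 2 * n ∧ ∀ (σ : α × β → Option γ) (e : α × β),
    (∀ u : γ, |f (Function.update σ e (some u)) - f (Function.update σ e none)| ≤ 2) ∧
    (e ∉ L → ∃ S : Finset γ, S.card ≤ 2 ∧ ∀ u,
      f (Function.update σ e (some u)) ≠ f (Function.update σ e none) → u ∈ S)

/-- NCH (what changes when one coordinate changes). Write `σ1 = update σ (a0,b0) (some u)`,
`σ0 = update σ (a0,b0) none`. CLAIM: if `used σ1 a b c` and `used σ0 a b c` are not equivalent, then `c = u` and one of: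
`(a,b) = (a0,b0)`; `a = a0`, `used σ0 a0 b u`; `b = b0`, `used σ0 a b0 u`. Indeed for `c ≠ u` all the conditions in
`used _ a b c` have the same truth value for `σ1` and `σ0` (at the coordinate `(a0,b0)` neither value is `some c`).
For `c = u` and `(a,b) ≠ (a0,b0)`: if `a ≠ a0` and `b ≠ b0` the coordinate `(a0,b0)` does not occur in `used _ a b u`;
if `a = a0` (so `b ≠ b0`), `used σ1 a0 b u` is false because `σ1 (a0,b0) = some u`, so `used σ0 a0 b u` holds; the same if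
`b = b0`. A change of `covA σ a b = ∃ c, used σ a b c` implies a change of some `used _ a b c`, and so on. The last
four parts: directly from the definition of `used` (`σ0 (a0,b0) = none`). -/
def StNCH : Prop :=
  ∀ (α β γ : Type) [DecidableEq α] [DecidableEq β] (σ : α × β → Option γ) (a0 : α) (b0 : β)
    (u : γ),
    (∀ a b, ¬ (covA (Function.update σ (a0, b0) (some u)) a b
        ↔ covA (Function.update σ (a0, b0) none) a b) →
      (a = a0 ∧ (b = b0 ∨ used (Function.update σ (a0, b0) none) a0 b u)) ∨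
      (b = b0 ∧ used (Function.update σ (a0, b0) none) a b0 u)) ∧
    (∀ b c, ¬ (covB (Function.update σ (a0, b0) (some u)) b c
        ↔ covB (Function.update σ (a0, b0) none) b c) →
      c = u ∧ (b = b0 ∨ used (Function.update σ (a0, b0) none) a0 b u)) ∧
    (∀ c a, ¬ (covC (Function.update σ (a0, b0) (some u)) c a
        ↔ covC (Function.update σ (a0, b0) none) c a) →
      c = u ∧ (a = a0 ∨ used (Function.update σ (a0, b0) none) a b0 u)) ∧
    (∀ b b', used (Function.update σ (a0, b0) none) a0 b u →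
      used (Function.update σ (a0, b0) none) a0 b' u → b = b') ∧
    (∀ a a', used (Function.update σ (a0, b0) none) a b0 u →
      used (Function.update σ (a0, b0) none) a' b0 u → a = a') ∧
    (∀ b, used (Function.update σ (a0, b0) none) a0 b u → b ≠ b0 ∧ σ (a0, b) = some u) ∧
    ∀ a, used (Function.update σ (a0, b0) none) a b0 u → a ≠ a0 ∧ σ (a, b0) = some u

/-- NLA (locality of the events for the edge sums). From NCH; `e = (a0,b0)`; a change of a conjunction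
implies a change of one of the two conditions. FIRST (`a`, `b` fixed, index `c`): a change implies `c = u`, so
`S = {u}`; `L = {(a0,b0) : a0 = a or b0 = b}`, at most `2n` elements; if `a0 ≠ a`, `b0 ≠ b`, a change implies
`used σ0 a0 b u`, so `σ (a0,b) = some u`, or `used σ0 a b0 u`, so `σ (a,b0) = some u`: take
`S = (σ (a0,b)).toFinset ∪ (σ (a,b0)).toFinset`. SECOND (`b`, `c` fixed, index `a`): a change implies `a = a0` or
`used σ0 a b0 u` (for `covA σ a b`: `a = a0`, or `b = b0` and `used σ0 a b0 u`); there is at most one `a` with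
`used σ0 a b0 u`, so at most two `a`. `L = {(a0,b0) : b0 = b}`; if `b0 ≠ b`: a change of `covC` implies `u = c`, a change
of `covA σ a b` implies `used σ0 a0 b u`, `σ (a0,b) = some u`: `S = {c} ∪ (σ (a0,b)).toFinset`. THIRD: symmetric to
the second. -/
def StNLA : Prop :=
  ∀ (α β γ : Type) [Fintype α] [Fintype β] [DecidableEq α] [DecidableEq β] [DecidableEq γ]
    (n : ℕ), Fintype.card α = n → Fintype.card β = n →
    (∀ (a : α) (b : β),
      Loc n (fun (c : γ) (σ : α × β → Option γ) => ¬ covB σ b c ∧ ¬ covC σ c a)) ∧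
    (∀ (b : β) (c : γ),
      Loc n (fun (a : α) (σ : α × β → Option γ) => ¬ covC σ c a ∧ ¬ covA σ a b)) ∧
    ∀ (c : γ) (a : α),
      Loc n (fun (b : β) (σ : α × β → Option γ) => ¬ covA σ a b ∧ ¬ covB σ b c)

/-- NLB (locality of the events for the degrees, first half). From NCH as in NLA. (1) `a` fixed, index `b`,
`covA σ a b`: a change implies `b = b0` or `used σ0 a0 b u` (at most one such `b`); `L = {(a0,b0) : a0 = a}`; if
`a0 ≠ a` a change implies `used σ0 a b0 u`, so `S = (σ (a,b0)).toFinset`. (2) symmetric. (3) `b` fixed, index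
`c`, `covB σ b c`: a change implies `c = u`; `L = {(a0,b0) : b0 = b}`; if `b0 ≠ b` a change implies `used σ0 a0 b u`, so
`S = (σ (a0,b)).toFinset`. -/
def StNLB : Prop :=
  ∀ (α β γ : Type) [Fintype α] [Fintype β] [DecidableEq α] [DecidableEq β] [DecidableEq γ]
    (n : ℕ), Fintype.card α = n → Fintype.card β = n →
    (∀ (a : α), Loc n (fun (b : β) (σ : α × β → Option γ) => ¬ covA σ a b)) ∧
    (∀ (b : β), Loc n (fun (a : α) (σ : α × β → Option γ) => ¬ covA σ a b)) ∧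
    ∀ (b : β), Loc n (fun (c : γ) (σ : α × β → Option γ) => ¬ covB σ b c)

/-- NLC (locality of the events for the degrees, second half). (1) `c` fixed, index `b`, `covB σ b c`: a
change implies `b = b0` or `used σ0 a0 b u` (at most two `b`), and `u = c` always: `L = ∅`, `S = {c}`.
(2) `c` fixed, index `a`, `covC σ c a`: symmetric. (3) `a` fixed, index `c`, `covC σ c a`: symmetric to NLB (3). -/
def StNLC : Prop :=
  ∀ (α β γ : Type) [Fintype α] [Fintype β] [DecidableEq α] [DecidableEq β] [DecidableEq γ]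
    (n : ℕ), Fintype.card α = n → Fintype.card β = n →
    (∀ (c : γ), Loc n (fun (b : β) (σ : α × β → Option γ) => ¬ covB σ b c)) ∧
    (∀ (c : γ), Loc n (fun (a : α) (σ : α × β → Option γ) => ¬ covC σ c a)) ∧
    ∀ (a : α), Loc n (fun (c : γ) (σ : α × β → Option γ) => ¬ covC σ c a)

/-- NSM. The difference of the two values of `Fv E g` is a sum over the `i` whose event changes its
status, each term `± g i`; at most two terms by the first property of `Loc`; no term, so equality, if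
`u` is not in the set `S` of the second property. -/
def StNSM : Prop :=
  ∀ (α β γ I : Type) [Fintype I] [DecidableEq α] [DecidableEq β] (n : ℕ)
    (E : I → (α × β → Option γ) → Prop) (g : I → ℝ), Loc n E → (∀ i, 0 ≤ g i ∧ g i ≤ 1) →
    Sml n (Fv E g) ∧ Sml n (fun σ => - Fv E g σ)

/-- NTL (tail bound). Apply BRN with `ι = α × β`, `w = wt x` (`≥ 0`, sum `1` by `Fintype.sum_option`), `c = 4`,
`t = η n`, `v e = 4` if `e ∈ L` and `v e = 8 Λ / n` otherwise. OSCILLATION: every value is at distance at most `2`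
from the value at `none`. VARIANCE with `m = f (update σ e none)`: the term of `none` is `0`; the others are at most
`4 ∑_u x e.1 e.2 u ≤ 4`; if `e ∉ L` only the at most two `u ∈ S` count, `x e.1 e.2 u ≤ Λ / n`: at most `8 Λ/n`. So
`∑ v ≤ 2n * 4 + n^2 * 8 Λ/n = 8 n (1 + Λ)`. Take `l = min (1/4) (η / (16 (1 + Λ)))`:
`-l η n + l^2 * 8 n (1 + Λ) ≤ - l η n / 2`, so `c = l η / 2`. (`Pr` uses classical decidability.) -/
def StNTL : Prop :=
  ∀ Λ η : ℝ, 1 ≤ Λ → 0 < η → ∃ c : ℝ, 0 < c ∧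
    ∀ (α β γ : Type) [Fintype α] [Fintype β] [Fintype γ] [DecidableEq α] [DecidableEq β]
      [DecidableEq γ] (n : ℕ) (δ : ℝ) (x : α → β → γ → ℝ), 0 < n → Dat n Λ δ x →
      ∀ f : (α × β → Option γ) → ℝ, Sml n f →
      Pr x (fun σ => Ex (wt x) f + η * n ≤ f σ) ≤ Real.exp (-(c * n))

/-- NMF (mean of `Fv`). `Ex (wt x) (Fv E g) = ∑ i, g i * Pr x (E i)` by exchanging the sums (no property of `x`
is needed). Then termwise. -/
def StNMF : Prop :=
  ∀ (α β γ I : Type) [Fintype α] [Fintype β] [Fintype γ] [Fintype I] [DecidableEq α]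
    [DecidableEq β] [DecidableEq γ] (x : α → β → γ → ℝ) (E : I → (α × β → Option γ) → Prop)
    (g : I → ℝ) (m κ : ℝ), (∀ i, 0 ≤ g i) → (∀ i, g i ≠ 0 → |Pr x (E i) - m| ≤ κ) →
    |Ex (wt x) (Fv E g) - m * ∑ i, g i| ≤ κ * ∑ i, g i

/-- NTW (two-sided tail for a local family). By NSM the functions `Fv E g` and `- Fv E g` are `Sml`. If
`|Fv - m ∑ g| > κ ∑ g + η n`, then by NMF `Fv ≥ Ex Fv + η n` or `-Fv ≥ Ex (-Fv) + η n` (`Ex (-f) = - Ex f`). So the
indicator of the event is at most the sum of the indicators of the two events of NTL, the weights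
are `≥ 0`. Same constant `c` as in NTL. -/
def StNTW : Prop :=
  ∀ Λ η : ℝ, 1 ≤ Λ → 0 < η → ∃ c : ℝ, 0 < c ∧
    ∀ (α β γ I : Type) [Fintype α] [Fintype β] [Fintype γ] [Fintype I] [DecidableEq α]
      [DecidableEq β] [DecidableEq γ] (n : ℕ) (δ : ℝ) (x : α → β → γ → ℝ), 0 < n →
      Dat n Λ δ x → ∀ (E : I → (α × β → Option γ) → Prop) (g : I → ℝ) (m κ : ℝ), Loc n E →
      (∀ i, 0 ≤ g i ∧ g i ≤ 1) → (∀ i, g i ≠ 0 → |Pr x (E i) - m| ≤ κ) →
      Pr x (fun σ => ¬ |Fv E g σ - m * ∑ i, g i| ≤ κ * ∑ i, g i + η * n)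
        ≤ 2 * Real.exp (-(c * n))

/-- NUB (union bound). Suppose every `σ` with all weights `wt x e (σ e) ≠ 0` (so `> 0`) is in some `B k`. Then
`1 = Ex (wt x) 1 ≤ Ex (wt x) (∑ k, [B k]) = ∑ k, Pr x (B k) ≤ |K| p < 1` (for the other `σ` the product of the
weights is `0`). The total weight `1`: `∑ σ, ∏ e, w e (σ e) = ∏ e, ∑ u, w e u = 1` (`Finset.prod_univ_sum`,
`Fintype.sum_option`). -/
def StNUB : Prop :=
  ∀ (α β γ K : Type) [Fintype α] [Fintype β] [Fintype γ] [Fintype K] [DecidableEq α]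
    [DecidableEq β] [DecidableEq γ] (x : α → β → γ → ℝ) (p : ℝ)
    (B : K → (α × β → Option γ) → Prop), (∀ a b c, 0 ≤ x a b c) → (∀ a b, ∑ c, x a b c ≤ 1) →
    (∀ k, Pr x (B k) ≤ p) → Fintype.card K * p < 1 →
    ∃ σ : α × β → Option γ, (∀ e, wt x e (σ e) ≠ 0) ∧ ∀ k, ¬ B k σ

/-- NN0. `n^2 exp (-c n) → 0` (`Real.tendsto_pow_mul_exp_neg_atTop_nhds_zero` after scaling). -/
def StNN0 : Prop :=
  ∀ c : ℝ, 0 < c → ∃ n0 : ℕ, ∀ n : ℕ, n0 ≤ n →
    0 < n ∧ 9 * (n : ℝ) ^ 2 * (2 * Real.exp (-(c * n))) < 1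

/-- The state before a round: `x` lives on the triangles of `(A, B, C)` and all the edge sums are in
`[1 - δ, 1]`. -/
structure Rd {α β γ : Type} [Fintype α] [Fintype β] [Fintype γ] [DecidableEq α] [DecidableEq β]
    [DecidableEq γ] (n : ℕ) (Λ δ : ℝ) (x : α → β → γ → ℝ) (A : Finset (α × β))
    (B : Finset (β × γ)) (C : Finset (γ × α)) : Prop where
  dat : Dat n Λ δ x
  sup : ∀ a b c, x a b c ≠ 0 → (a, b) ∈ A ∧ (b, c) ∈ B ∧ (c, a) ∈ C
  lA : ∀ a b, (a, b) ∈ A → 1 - δ ≤ ∑ c, x a b c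
  lB : ∀ b c, (b, c) ∈ B → 1 - δ ≤ ∑ a, x a b c
  lC : ∀ c a, (c, a) ∈ C → 1 - δ ≤ ∑ b, x a b c

/-- A good outcome of the random choice. -/
structure Gd {α β γ : Type} [Fintype α] [Fintype β] [Fintype γ] [DecidableEq α] [DecidableEq β]
    [DecidableEq γ] (κ η : ℝ) (n : ℕ) (x : α → β → γ → ℝ) (A : Finset (α × β))
    (B : Finset (β × γ)) (C : Finset (γ × α)) (σ : α × β → Option γ) : Prop where
  pos : ∀ e, wt x e (σ e) ≠ 0
  sA : ∀ a b, |Fv (fun (c : γ) (τ : α × β → Option γ) => ¬ covB τ b c ∧ ¬ covC τ c a)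
      (fun c => x a b c) σ - q ^ 2 * ∑ c, x a b c| ≤ κ * ∑ c, x a b c + η
  sB : ∀ b c, |Fv (fun (a : α) (τ : α × β → Option γ) => ¬ covC τ c a ∧ ¬ covA τ a b)
      (fun a => x a b c) σ - q ^ 2 * ∑ a, x a b c| ≤ κ * ∑ a, x a b c + η
  sC : ∀ c a, |Fv (fun (b : β) (τ : α × β → Option γ) => ¬ covA τ a b ∧ ¬ covB τ b c)
      (fun b => x a b c) σ - q ^ 2 * ∑ b, x a b c| ≤ κ * ∑ b, x a b c + η
  dA1 : ∀ a, Fv (fun (b : β) (τ : α × β → Option γ) => ¬ covA τ a b)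
      (fun b => if (a, b) ∈ A then 1 else 0) σ ≤ (q + κ) * d1 A a + η * n
  dA2 : ∀ b, Fv (fun (a : α) (τ : α × β → Option γ) => ¬ covA τ a b)
      (fun a => if (a, b) ∈ A then 1 else 0) σ ≤ (q + κ) * d2 A b + η * n
  dB1 : ∀ b, Fv (fun (c : γ) (τ : α × β → Option γ) => ¬ covB τ b c)
      (fun c => if (b, c) ∈ B then 1 else 0) σ ≤ (q + κ) * d1 B b + η * n
  dB2 : ∀ c, Fv (fun (b : β) (τ : α × β → Option γ) => ¬ covB τ b c)
      (fun b => if (b, c) ∈ B then 1 else 0) σ ≤ (q + κ) * d2 B c + η * n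
  dC1 : ∀ c, Fv (fun (a : α) (τ : α × β → Option γ) => ¬ covC τ c a)
      (fun a => if (c, a) ∈ C then 1 else 0) σ ≤ (q + κ) * d1 C c + η * n
  dC2 : ∀ a, Fv (fun (c : γ) (τ : α × β → Option γ) => ¬ covC τ c a)
      (fun c => if (c, a) ∈ C then 1 else 0) σ ≤ (q + κ) * d2 C a + η * n

/-- NBD (the nine bad events have small probability). Let `K` be the constant of `StMEAN` (increase it to be
`≥ 1`), `κ = K (δ + Λ/n)`, and `c` the constant of NTW for `Λ` and `η / Λ`. Edge sums: apply NTW to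
`g c = (n / Λ) x a b c ∈ [0,1]`, `m = q^2`, the means from `StMEAN` (`x a b c ≠ 0`); the inequality multiplied by
`Λ / n` is the one stated (`Fv` is linear in `g`). Degrees: `g b = 1` if `(a,b) ∈ A`, else `0`, `m = q`, `∑ g = d1 A a`
(`d1_eq_sum`); for `(a,b) ∈ A` there is a `c` with `x a b c ≠ 0` because `∑ c, x a b c ≥ 1 - δ > 0`; `η/Λ ≤ η`, and the
one-sided inequality follows from the two-sided one. NLA, NLB, NLC give the locality. `n0 ≥ 4 Λ` and
`n0 ≥ 1`. -/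
def StNBD : Prop :=
  ∃ K : ℝ, 1 ≤ K ∧ ∀ Λ η : ℝ, 1 ≤ Λ → 0 < η → ∃ (c : ℝ) (n0 : ℕ), 0 < c ∧
    ∀ (α β γ : Type) [Fintype α] [Fintype β] [Fintype γ] [DecidableEq α] [DecidableEq β]
      [DecidableEq γ] (n : ℕ) (δ : ℝ) (x : α → β → γ → ℝ) (A : Finset (α × β))
      (B : Finset (β × γ)) (C : Finset (γ × α)), n0 ≤ n → 0 ≤ δ → δ ≤ 1 / 2 →
      Rd n Λ δ x A B C →
      (∀ a b, Pr x (fun σ => ¬ |Fv (fun (c : γ) (τ : α × β → Option γ) =>
          ¬ covB τ b c ∧ ¬ covC τ c a) (fun c => x a b c) σ - q ^ 2 * ∑ c, x a b c|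
          ≤ K * (δ + Λ / n) * ∑ c, x a b c + η) ≤ 2 * Real.exp (-(c * n))) ∧
      (∀ b c', Pr x (fun σ => ¬ |Fv (fun (a : α) (τ : α × β → Option γ) =>
          ¬ covC τ c' a ∧ ¬ covA τ a b) (fun a => x a b c') σ - q ^ 2 * ∑ a, x a b c'|
          ≤ K * (δ + Λ / n) * ∑ a, x a b c' + η) ≤ 2 * Real.exp (-(c * n))) ∧
      (∀ c' a, Pr x (fun σ => ¬ |Fv (fun (b : β) (τ : α × β → Option γ) =>
          ¬ covA τ a b ∧ ¬ covB τ b c') (fun b => x a b c') σ - q ^ 2 * ∑ b, x a b c'|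
          ≤ K * (δ + Λ / n) * ∑ b, x a b c' + η) ≤ 2 * Real.exp (-(c * n))) ∧
      (∀ a, Pr x (fun σ => ¬ Fv (fun (b : β) (τ : α × β → Option γ) => ¬ covA τ a b)
          (fun b => if (a, b) ∈ A then 1 else 0) σ ≤ (q + K * (δ + Λ / n)) * d1 A a + η * n)
          ≤ 2 * Real.exp (-(c * n))) ∧
      (∀ b, Pr x (fun σ => ¬ Fv (fun (a : α) (τ : α × β → Option γ) => ¬ covA τ a b)
          (fun a => if (a, b) ∈ A then 1 else 0) σ ≤ (q + K * (δ + Λ / n)) * d2 A b + η * n)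
          ≤ 2 * Real.exp (-(c * n))) ∧
      (∀ b, Pr x (fun σ => ¬ Fv (fun (c : γ) (τ : α × β → Option γ) => ¬ covB τ b c)
          (fun c => if (b, c) ∈ B then 1 else 0) σ ≤ (q + K * (δ + Λ / n)) * d1 B b + η * n)
          ≤ 2 * Real.exp (-(c * n))) ∧
      (∀ c', Pr x (fun σ => ¬ Fv (fun (b : β) (τ : α × β → Option γ) => ¬ covB τ b c')
          (fun b => if (b, c') ∈ B then 1 else 0) σ ≤ (q + K * (δ + Λ / n)) * d2 B c' + η * n)
          ≤ 2 * Real.exp (-(c * n))) ∧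
      (∀ c', Pr x (fun σ => ¬ Fv (fun (a : α) (τ : α × β → Option γ) => ¬ covC τ c' a)
          (fun a => if (c', a) ∈ C then 1 else 0) σ ≤ (q + K * (δ + Λ / n)) * d1 C c' + η * n)
          ≤ 2 * Real.exp (-(c * n))) ∧
      ∀ a, Pr x (fun σ => ¬ Fv (fun (c : γ) (τ : α × β → Option γ) => ¬ covC τ c a)
          (fun c => if (c, a) ∈ C then 1 else 0) σ ≤ (q + K * (δ + Λ / n)) * d2 C a + η * n)
          ≤ 2 * Real.exp (-(c * n))

/-- NGD (a good outcome exists). NUB with `p = 2 exp (-c n)`, the index type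
`(α × β) ⊕ (β × γ) ⊕ (γ × α) ⊕ α ⊕ β ⊕ β ⊕ γ ⊕ γ ⊕ α` (`3 n^2 + 6 n ≤ 9 n^2` elements) and the nine families
of bad events of NBD (`Sum.elim`), `n0` from NN0 for the constant `c` of NBD. -/
def StNGD : Prop :=
  ∃ K : ℝ, 1 ≤ K ∧ ∀ Λ η : ℝ, 1 ≤ Λ → 0 < η → ∃ n0 : ℕ,
    ∀ (α β γ : Type) [Fintype α] [Fintype β] [Fintype γ] [DecidableEq α] [DecidableEq β]
      [DecidableEq γ] (n : ℕ) (δ : ℝ) (x : α → β → γ → ℝ) (A : Finset (α × β))
      (B : Finset (β × γ)) (C : Finset (γ × α)), n0 ≤ n → 0 ≤ δ → δ ≤ 1 / 2 →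
      Rd n Λ δ x A B C → ∃ σ : α × β → Option γ, Gd (K * (δ + Λ / n)) η n x A B C σ

/-- NNW (the new data, deterministic). `P` from `StPCK`: its triples are the used triples, `(a,b) ∈ P.image eA` iff
`covA σ a b`, etc. Put `μ = q^2 + κ + η` and `x' a b c = x a b c / μ` if none of `covA σ a b`, `covB σ b c`, `covC σ c a` holds, and
`0` otherwise. `q^2 ≥ 1/2` (`exp (-2) ≤ 14/100`), so `1/μ ≤ 2`, `x' ≤ 2 Λ / n`. SUMS at `(a,b)`: if `covA σ a b` all the
`x' a b c` are `0`; otherwise `∑ c, x' a b c = Fv (..) / μ` (the statistic in `Gd.sA`), with `S = ∑ c, x a b c ≤ 1`: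
`Fv ≤ q^2 S + κ S + η ≤ μ`; and if `(a,b) ∈ A`, `Fv ≥ q^2 S - κ S - η ≥ q^2 (1 - δ) - κ - η ≥ (1 - δ') μ` with
`δ' = δ + 4 κ + 4 η`, because `δ' q^2 ≥ δ q^2 + 2 κ + 2 η`. The same at `(b,c)`, `(c,a)`. `sup`: `x' a b c ≠ 0` implies
`x a b c ≠ 0` and that no edge is covered. DEGREES: `d1 (A \ P.image eA) a` is the number of `b` with `(a,b) ∈ A` and
not `covA σ a b` (`d1_eq`), that is the `Fv` in `Gd.dA1`; the same for the other five. -/
def StNNW : Prop :=
  ∀ (α β γ : Type) [Fintype α] [Fintype β] [Fintype γ] [DecidableEq α] [DecidableEq β]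
    [DecidableEq γ] (n : ℕ) (Λ δ κ η : ℝ) (x : α → β → γ → ℝ) (A : Finset (α × β))
    (B : Finset (β × γ)) (C : Finset (γ × α)) (σ : α × β → Option γ), 0 < n → 0 ≤ Λ → 0 ≤ δ →
    0 ≤ κ → 0 ≤ η → Rd n Λ δ x A B C → Gd κ η n x A B C σ →
    ∃ (P : Finset (α × β × γ)) (x' : α → β → γ → ℝ), Pack A B C P ∧
      Rd n (2 * Λ) (δ + 4 * κ + 4 * η) x' (A \ P.image eA) (B \ P.image eB) (C \ P.image eC) ∧
      (∀ a, (d1 (A \ P.image eA) a : ℝ) ≤ (q + κ) * d1 A a + η * n) ∧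
      (∀ b, (d2 (A \ P.image eA) b : ℝ) ≤ (q + κ) * d2 A b + η * n) ∧
      (∀ b, (d1 (B \ P.image eB) b : ℝ) ≤ (q + κ) * d1 B b + η * n) ∧
      (∀ c, (d2 (B \ P.image eB) c : ℝ) ≤ (q + κ) * d2 B c + η * n) ∧
      (∀ c, (d1 (C \ P.image eC) c : ℝ) ≤ (q + κ) * d1 C c + η * n) ∧
      ∀ a, (d2 (C \ P.image eC) a : ℝ) ≤ (q + κ) * d2 C a + η * n

/-- NRD (one round). From NGD and NNW with `κ = K0 (δ + Λ/n) ≤ K0 (δ + η)` for `n ≥ Λ / η`; `K = 4 K0 + 5`:
`δ + 4 κ + 4 η ≤ K (δ + η)`, `κ ≤ K (δ + η)`. `Rd` is monotone in `δ` (also its field `dat`). -/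
def StNRD : Prop :=
  ∃ K : ℝ, 1 ≤ K ∧ ∀ Λ η : ℝ, 1 ≤ Λ → 0 < η → ∃ n0 : ℕ,
    ∀ (α β γ : Type) [Fintype α] [Fintype β] [Fintype γ] [DecidableEq α] [DecidableEq β]
      [DecidableEq γ] (n : ℕ) (δ : ℝ) (x : α → β → γ → ℝ) (A : Finset (α × β))
      (B : Finset (β × γ)) (C : Finset (γ × α)), n0 ≤ n → 0 ≤ δ → δ ≤ 1 / 2 →
      Rd n Λ δ x A B C →
      ∃ (P : Finset (α × β × γ)) (x' : α → β → γ → ℝ), Pack A B C P ∧
      Rd n (2 * Λ) (K * (δ + η)) x' (A \ P.image eA) (B \ P.image eB) (C \ P.image eC) ∧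
      (∀ a, (d1 (A \ P.image eA) a : ℝ) ≤ (q + K * (δ + η)) * d1 A a + η * n) ∧
      (∀ b, (d2 (A \ P.image eA) b : ℝ) ≤ (q + K * (δ + η)) * d2 A b + η * n) ∧
      (∀ b, (d1 (B \ P.image eB) b : ℝ) ≤ (q + K * (δ + η)) * d1 B b + η * n) ∧
      (∀ c, (d2 (B \ P.image eB) c : ℝ) ≤ (q + K * (δ + η)) * d2 B c + η * n) ∧
      (∀ c, (d1 (C \ P.image eC) c : ℝ) ≤ (q + K * (δ + η)) * d1 C c + η * n) ∧
      ∀ a, (d2 (C \ P.image eC) a : ℝ) ≤ (q + K * (δ + η)) * d2 C a + η * n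

/-- NIT (iteration). `K` from NRD. Induction on `t` (for all `Λ`). `t = 0`: `P = ∅`. Step: `(2K)^(t+1) (δ + η) ≤ 3/100`
gives `δ ≤ 1/2` and `K (δ + η) ≤ 3/200`, so `q + K (δ + η) ≤ 9/10` (`q ≤ 865/1000`: `exp 1 ≤ 2.7182818286`,
`exp (-2) ≥ 0.135`). NRD gives `P1`, `x'`, new edge sets `A' = A \ P1.image eA` etc. with `δ' = K (δ + η)`, `Λ' = 2 Λ`;
`(2K)^t (δ' + η) ≤ (2K)^t (2K (δ + η))` as `K ≥ 1`. The induction hypothesis for `2 Λ`, `η`, gives `P2`. `P = P1 ∪ P2`: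
a `Pack` of `(A,B,C)` (the edges of `P2` are in `A'`, so not edges of `P1`), `A \ P.image eA = A' \ P2.image eA`.
Degrees: `(9/10)^t ((9/10) d + η n) + t η n ≤ (9/10)^(t+1) d + (t+1) η n`. `n0` = maximum of the two. -/
def StNIT : Prop :=
  ∃ K : ℝ, 1 ≤ K ∧ ∀ (t : ℕ) (Λ η : ℝ), 1 ≤ Λ → 0 < η → ∃ n0 : ℕ,
    ∀ (α β γ : Type) [Fintype α] [Fintype β] [Fintype γ] [DecidableEq α] [DecidableEq β]
      [DecidableEq γ] (n : ℕ) (δ : ℝ) (x : α → β → γ → ℝ) (A : Finset (α × β))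
      (B : Finset (β × γ)) (C : Finset (γ × α)), n0 ≤ n → 0 ≤ δ →
      (2 * K) ^ t * (δ + η) ≤ 3 / 100 → Rd n Λ δ x A B C →
      ∃ P : Finset (α × β × γ), Pack A B C P ∧
      (∀ a, (d1 (A \ P.image eA) a : ℝ) ≤ (9 / 10) ^ t * d1 A a + t * η * n) ∧
      (∀ b, (d2 (A \ P.image eA) b : ℝ) ≤ (9 / 10) ^ t * d2 A b + t * η * n) ∧
      (∀ b, (d1 (B \ P.image eB) b : ℝ) ≤ (9 / 10) ^ t * d1 B b + t * η * n) ∧
      (∀ c, (d2 (B \ P.image eB) c : ℝ) ≤ (9 / 10) ^ t * d2 B c + t * η * n) ∧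
      (∀ c, (d1 (C \ P.image eC) c : ℝ) ≤ (9 / 10) ^ t * d1 C c + t * η * n) ∧
      ∀ a, (d2 (C \ P.image eC) a : ℝ) ≤ (9 / 10) ^ t * d2 C a + t * η * n

/-! MODULE NFB: `StNIT → StNIB`. Given `Λ`, `g`: `Λ' = max Λ 1`; `t` with `(9/10)^t ≤ g/2`
(`exists_pow_lt_of_lt_one`), `δ = (3/200) / (2K)^t`, `η = min δ (g / (2 (t + 1)))`, `n0` from NIT for `t`, `Λ'`, `η`. The
hypotheses of NIB give `Rd n Λ' δ x A B C` (the fields `lA`, `lB`, `lC` of `dat` from `sup`). All degrees are at most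
`n` (`d1_add_m1`, `d2_add_m2`), so the final degrees are at most `(g/2) n + t η n ≤ g n`. -/

end Pool.Agent.Helper38.IA
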